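import Pool.Agent.helper74.TG.Defs
import Pool.Agent.helper35.MT.AN4
import Pool.Agent.helper17.TG.SW1
import Pool.Agent.helper99.TG.SW2

/-! # GNU project, module sw:3b: real characters away from the real axis -/

namespace Pool.Agent.helper74.TG

open Finset ArithmeticFunction Pool.Agent.helper39.MT

theorem h96_prod_le (q : ℕ) (hq : 0 < q) :
    ∏ p ∈ q.primeFactors, (1 + 1 / (p : ℝ)) ≤ 1 + Real.log q := by
  rw [Finset.prod_one_add]
  have hpr : ∀ S ∈ q.primeFactors.powerset, ∀ p ∈ S, p.Prime := fun S hS p hp =>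
    Nat.prime_of_mem_primeFactors (Finset.mem_powerset.1 hS hp)
  have h1 : ∑ t ∈ q.primeFactors.powerset, ∏ i ∈ t, 1 / (i : ℝ) =
      ∑ n ∈ q.primeFactors.powerset.image (fun t => ∏ i ∈ t, i), 1 / (n : ℝ) := by
    rw [Finset.sum_image]
    · refine Finset.sum_congr rfl fun t _ => ?_
      push_cast
      rw [Finset.prod_div_distrib, Finset.prod_const_one]
    · intro S hS T hT hST
      have h2 := congrArg Nat.primeFactors hST
      simp only at h2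
      rwa [Nat.primeFactors_prod (hpr S hS), Nat.primeFactors_prod (hpr T hT)] at h2
  rw [h1]
  have h3 : q.primeFactors.powerset.image (fun t => ∏ i ∈ t, i) ⊆ Finset.Icc 1 q := by
    intro n hn
    obtain ⟨S, hS, rfl⟩ := Finset.mem_image.1 hn
    have hd : ∏ i ∈ S, i ∣ q :=
      (Finset.prod_dvd_prod_of_subset _ _ _ (Finset.mem_powerset.1 hS)).trans
        (Nat.prod_primeFactors_dvd q)
    exact Finset.mem_Icc.2 ⟨Nat.pos_of_dvd_of_pos hd hq, Nat.le_of_dvd hq hd⟩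
  refine (Finset.sum_le_sum_of_subset_of_nonneg h3 fun n _ _ => by positivity).trans ?_
  have h4 := harmonic_le_one_add_log q
  rw [harmonic_eq_sum_Icc] at h4
  push_cast at h4
  simpa [one_div] using h4

theorem h96_triv {q : ℕ} (hq : 0 < q) {s : ℂ} (hs : 1 < s.re) :
    ‖LSeries (fun n : ℕ => ((1 : DirichletCharacter ℂ q) n : ℂ)) s‖ ≤
      (1 + Real.log q) * ‖riemannZeta s‖ := by
  have : NeZero q := ⟨hq.ne'⟩
  have h1 := DirichletCharacter.LFunction_eq_LSeries (1 : DirichletCharacter ℂ q) hs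
  have hs1 : s ≠ 1 := by
    rintro rfl
    simp at hs
  have h2 := DirichletCharacter.LFunctionTrivChar_eq_mul_riemannZeta (N := q) hs1
  rw [DirichletCharacter.LFunctionTrivChar, h1] at h2
  rw [h2, norm_mul]
  refine mul_le_mul_of_nonneg_right ?_ (norm_nonneg _)
  rw [norm_prod]
  refine (Finset.prod_le_prod (fun p _ => norm_nonneg _) fun p hp => ?_).trans (h96_prod_le q hq)
  have hpp := Nat.prime_of_mem_primeFactors hp
  refine (norm_sub_le _ _).trans ?_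
  rw [norm_one, Complex.norm_natCast_cpow_of_pos hpp.pos, Complex.neg_re]
  have h3 : (p : ℝ) ^ (-s.re) ≤ (p : ℝ) ^ (-1 : ℝ) :=
    Real.rpow_le_rpow_of_exponent_le (by exact_mod_cast hpp.one_le) (by linarith)
  rw [Real.rpow_neg_one] at h3
  rw [one_div]
  linarith

/-- sw:3b from its ingredients. -/
theorem lower_real_t_of
    (hlip : ∃ C : ℝ, 0 < C ∧ ∀ q : ℕ, 2 ≤ q → ∀ χ : DirichletCharacter ℂ q,
      χ ≠ 1 → ∀ s s' : ℂ, 1 < s.re → s.re ≤ 2 → 1 < s'.re → s'.re ≤ 2 → |s'.im| ≤ |s.im| →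
      ‖DD χ 0 s - DD χ 0 s'‖ ≤ C * ll q s ^ 2 * ‖s - s'‖)
    (hzeta : ∃ C : ℝ, 0 < C ∧ ∀ s : ℂ, 1 < s.re → s.re ≤ 2 →
      ‖riemannZeta s‖ ≤ C * (1 / ‖s - 1‖ + Real.log (2 + |s.im|))) :
    ∃ c : ℝ, 0 < c ∧ ∀ q : ℕ, 2 ≤ q → ∀ χ : DirichletCharacter ℂ q,
    χ ≠ 1 → χ ^ 2 = 1 → ∀ τ : ℝ, 0 < τ → τ ≤ 1 → ∀ s : ℂ, 1 < s.re → s.re ≤ 2 → τ ≤ |s.im| →
    c * τ / ll q s ^ 8 ≤ ‖DD χ 0 s‖ := by
  obtain ⟨C₁', hC₁', h₁⟩ := hzeta
  obtain ⟨C₂', hC₂', h₂⟩ := hlip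
  set C₁ := max C₁' 1 with hC₁def
  set C₂ := max C₂' 1 with hC₂def
  have hC₁ : 1 ≤ C₁ := le_max_right _ _
  have hC₂ : 1 ≤ C₂ := le_max_right _ _
  have hC₁0 : 0 < C₁ := by linarith
  have hC₂0 : 0 < C₂ := by linarith
  set c₀ := 1 / (128 * C₁ * C₂ ^ 4) with hc₀
  have hc₀0 : 0 < c₀ := by positivity
  have hc₀1 : c₀ ≤ 1 := by
    rw [hc₀, div_le_one (by positivity)]
    have : 1 ≤ C₂ ^ 4 := one_le_pow₀ hC₂
    nlinarith [mul_le_mul hC₁ this zero_le_one hC₁0.le]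
  refine ⟨c₀, hc₀0, fun q hq χ hχ hχ2 τ hτ hτ1 s hs1 hs2 hst => ?_⟩
  set t := s.im with ht
  set ℓ := ll q s with hℓ
  have hlogq : Real.log 2 ≤ Real.log q := Real.log_le_log (by norm_num) (by exact_mod_cast hq)
  have hlog2 : 0 < Real.log 2 := Real.log_pos (by norm_num)
  have hlogt : Real.log 2 ≤ Real.log (2 + |t|) :=
    Real.log_le_log (by norm_num) (by linarith [abs_nonneg t])
  have hℓe : ℓ = 1 + Real.log q + Real.log (2 + |t|) := rfl
  have hℓ1 : 1 ≤ ℓ := by rw [hℓe]; linarith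
  have hℓ0 : 0 < ℓ := by linarith
  set x₀ := c₀ * τ / ℓ ^ 10 with hx₀
  have hx₀0 : 0 < x₀ := by positivity
  have hx₀1 : x₀ ≤ 1 := by
    rw [hx₀, div_le_one (by positivity)]
    have h1 : c₀ * τ ≤ 1 := by nlinarith
    exact h1.trans (one_le_pow₀ hℓ1)
  -- the bound on the right of `1 + x₀`
  have key : ∀ x : ℝ, x₀ ≤ x → x ≤ 1 →
      2 * C₂ * c₀ * τ / ℓ ^ 8 ≤ ‖LSeries (fun n : ℕ => (χ n : ℂ)) (1 + x + Complex.I * t)‖ := by
    intro x hx hx1
    have hx0 : 0 < x := by linarith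
    have hprod := DirichletCharacter.norm_LSeries_product_ge_one χ hx0 t
    rw [hχ2] at hprod
    simp only [norm_mul, norm_pow] at hprod
    have hre : ((1 : ℂ) + (x : ℂ)).re = 1 + x := by simp
    have ha : ‖LSeries (fun n : ℕ => ((1 : DirichletCharacter ℂ q) n : ℂ)) (1 + (x : ℂ))‖ ≤
        2 / x := by
      have h := h35_norm_L_le (1 : DirichletCharacter ℂ q) (s := 1 + (x : ℂ))
        (by rw [hre]; linarith)
      rw [hre, add_sub_cancel_left] at h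
      refine h.trans ?_
      rw [show (2 : ℝ) / x = 1 / x + 1 / x by ring]
      have : 1 ≤ 1 / x := by
        rw [le_div_iff₀ hx0]; linarith
      linarith
    have hre2 : (1 + (x : ℂ) + 2 * Complex.I * (t : ℂ)).re = 1 + x := by simp
    have him2 : (1 + (x : ℂ) + 2 * Complex.I * (t : ℂ)).im = 2 * t := by simp
    have hb : ‖LSeries (fun n : ℕ => ((1 : DirichletCharacter ℂ q) n : ℂ))
        (1 + (x : ℂ) + 2 * Complex.I * (t : ℂ))‖ ≤ C₁ * ℓ ^ 2 / τ := by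
      refine (h96_triv (by omega) (by rw [hre2]; linarith)).trans ?_
      have h3 := h₁ (1 + (x : ℂ) + 2 * Complex.I * (t : ℂ)) (by rw [hre2]; linarith)
        (by rw [hre2]; linarith)
      have h4 : τ ≤ ‖(1 + (x : ℂ) + 2 * Complex.I * (t : ℂ)) - 1‖ := by
        refine le_trans ?_ (Complex.abs_im_le_norm _)
        rw [Complex.sub_im, him2, Complex.one_im, sub_zero, abs_mul]
        have : |(2 : ℝ)| = 2 := by norm_num
        rw [this]
        linarith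
      have h5 : 1 / ‖(1 + (x : ℂ) + 2 * Complex.I * (t : ℂ)) - 1‖ ≤ 1 / τ :=
        one_div_le_one_div_of_le hτ h4
      have h6 : Real.log (2 + |2 * t|) ≤ ℓ - 1 := by
        have h7 : Real.log (2 + |2 * t|) ≤ Real.log (2 * (2 + |t|)) := by
          apply Real.log_le_log (by positivity)
          rw [abs_mul]
          have : |(2 : ℝ)| = 2 := by norm_num
          rw [this]
          linarith [abs_nonneg t]
        rw [Real.log_mul (by norm_num) (by positivity)] at h7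
        rw [hℓe]
        linarith
      have h8 : ‖riemannZeta (1 + (x : ℂ) + 2 * Complex.I * (t : ℂ))‖ ≤ C₁ * (ℓ / τ) := by
        refine h3.trans ?_
        rw [him2]
        have h9 : 1 / ‖(1 + (x : ℂ) + 2 * Complex.I * (t : ℂ)) - 1‖ + Real.log (2 + |2 * t|) ≤
            ℓ / τ := by
          have h10 : ℓ - 1 ≤ (ℓ - 1) / τ := by
            rw [le_div_iff₀ hτ]
            nlinarith
          have h11 : ℓ / τ = 1 / τ + (ℓ - 1) / τ := by ring
          rw [h11]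
          linarith
        have h12 : 0 ≤ ℓ / τ := by positivity
        calc C₁' * (1 / ‖(1 + (x : ℂ) + 2 * Complex.I * (t : ℂ)) - 1‖ + Real.log (2 + |2 * t|))
            ≤ C₁' * (ℓ / τ) := mul_le_mul_of_nonneg_left h9 hC₁'.le
          _ ≤ C₁ * (ℓ / τ) := mul_le_mul_of_nonneg_right (le_max_left _ _) h12
      calc (1 + Real.log q) * ‖riemannZeta (1 + (x : ℂ) + 2 * Complex.I * (t : ℂ))‖
          ≤ ℓ * (C₁ * (ℓ / τ)) := by
            apply mul_le_mul _ h8 (norm_nonneg _) hℓ0.le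
            rw [hℓe]; linarith
        _ = C₁ * ℓ ^ 2 / τ := by ring
    set y := ‖LSeries (fun n : ℕ => (χ n : ℂ)) (1 + x + Complex.I * t)‖ with hy
    have hy0 : 0 ≤ y := norm_nonneg _
    by_contra hcon
    push Not at hcon
    have h5 : (2 / x) ≤ 2 / x₀ := div_le_div_of_nonneg_left (by norm_num) hx₀0 hx
    have h3 : ‖LSeries (fun n : ℕ => ((1 : DirichletCharacter ℂ q) n : ℂ)) (1 + (x : ℂ))‖ ^ 3
        * y ^ 4 * ‖LSeries (fun n : ℕ => ((1 : DirichletCharacter ℂ q) n : ℂ))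
          (1 + (x : ℂ) + 2 * Complex.I * (t : ℂ))‖
        < (2 / x₀) ^ 3 * (2 * C₂ * c₀ * τ / ℓ ^ 8) ^ 4 * (C₁ * ℓ ^ 2 / τ) := by
      have h4 : y ^ 4 < (2 * C₂ * c₀ * τ / ℓ ^ 8) ^ 4 := pow_lt_pow_left₀ hcon hy0 (by norm_num)
      have h5 : ‖LSeries (fun n : ℕ => ((1 : DirichletCharacter ℂ q) n : ℂ)) (1 + (x : ℂ))‖ ^ 3
          ≤ (2 / x₀) ^ 3 := pow_le_pow_left₀ (norm_nonneg _) (ha.trans h5) 3
      calc ‖LSeries (fun n : ℕ => ((1 : DirichletCharacter ℂ q) n : ℂ)) (1 + (x : ℂ))‖ ^ 3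
            * y ^ 4 * ‖LSeries (fun n : ℕ => ((1 : DirichletCharacter ℂ q) n : ℂ))
              (1 + (x : ℂ) + 2 * Complex.I * (t : ℂ))‖
          ≤ (2 / x₀) ^ 3 * y ^ 4 * (C₁ * ℓ ^ 2 / τ) := by
            apply mul_le_mul _ hb (norm_nonneg _) (by positivity)
            exact mul_le_mul_of_nonneg_right h5 (by positivity)
        _ < (2 / x₀) ^ 3 * (2 * C₂ * c₀ * τ / ℓ ^ 8) ^ 4 * (C₁ * ℓ ^ 2 / τ) := by
            apply mul_lt_mul_of_pos_right _ (by positivity)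
            exact mul_lt_mul_of_pos_left h4 (by positivity)
    have h6 : (2 / x₀) ^ 3 * (2 * C₂ * c₀ * τ / ℓ ^ 8) ^ 4 * (C₁ * ℓ ^ 2 / τ) = 1 := by
      rw [hx₀, hc₀]
      field_simp
      norm_num
    rw [h6] at h3
    exact absurd hprod (not_le.2 h3)
  -- conclusion
  have hsx : ∀ x : ℝ, (1 + (x : ℂ) + Complex.I * (t : ℂ)).re = 1 + x ∧
      (1 + (x : ℂ) + Complex.I * (t : ℂ)).im = t := fun x => by simp
  have hs : s = 1 + ((s.re - 1 : ℝ) : ℂ) + Complex.I * (t : ℂ) := by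
    apply Complex.ext
    · rw [(hsx _).1]; ring
    · rw [(hsx _).2]
  have h8 : c₀ * τ / ℓ ^ 8 ≤ C₂ * c₀ * τ / ℓ ^ 8 := by
    apply div_le_div_of_nonneg_right _ (by positivity)
    have : 0 < c₀ * τ := by positivity
    nlinarith
  rcases le_total x₀ (s.re - 1) with hx | hx
  · have h := key (s.re - 1) hx (by linarith)
    rw [← hs] at h
    rw [h35_DD_zero]
    have : C₂ * c₀ * τ / ℓ ^ 8 ≤ 2 * C₂ * c₀ * τ / ℓ ^ 8 := by
      apply div_le_div_of_nonneg_right _ (by positivity)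
      have : 0 < C₂ * c₀ * τ := by positivity
      nlinarith
    linarith
  · set s₀ : ℂ := 1 + (x₀ : ℂ) + Complex.I * (t : ℂ) with hs₀
    have h := key x₀ le_rfl hx₀1
    have hlip := h₂ q hq χ hχ s s₀ hs1 hs2 (by rw [(hsx _).1]; linarith)
      (by rw [(hsx _).1]; linarith) (by rw [(hsx _).2])
    have hdiff : ‖s - s₀‖ ≤ x₀ := by
      have : s - s₀ = ((s.re - 1 - x₀ : ℝ) : ℂ) := by
        conv_lhs => rw [hs]
        rw [hs₀]; push_cast; ring
      rw [this, Complex.norm_real, Real.norm_eq_abs, abs_le]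
      constructor <;> linarith
    have hlip2 : ‖DD χ 0 s - DD χ 0 s₀‖ ≤ C₂ * c₀ * τ / ℓ ^ 8 := by
      refine hlip.trans ?_
      calc C₂' * ℓ ^ 2 * ‖s - s₀‖ ≤ C₂ * ℓ ^ 2 * x₀ := by
            apply mul_le_mul _ hdiff (norm_nonneg _) (by positivity)
            exact mul_le_mul_of_nonneg_right (le_max_left _ _) (by positivity)
        _ = C₂ * c₀ * τ / ℓ ^ 8 := by
            rw [hx₀]; field_simp
    have h7 : ‖DD χ 0 s₀‖ - ‖DD χ 0 s‖ ≤ ‖DD χ 0 s - DD χ 0 s₀‖ := by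
      rw [norm_sub_rev]
      exact norm_sub_norm_le _ _
    have h9 : 2 * C₂ * c₀ * τ / ℓ ^ 8 = C₂ * c₀ * τ / ℓ ^ 8 + C₂ * c₀ * τ / ℓ ^ 8 := by ring
    rw [← h35_DD_zero] at h
    linarith

/-- sw:3b: real characters away from the real axis. -/
theorem lower_real_t : ∃ c : ℝ, 0 < c ∧ ∀ q : ℕ, 2 ≤ q → ∀ χ : DirichletCharacter ℂ q,
    χ ≠ 1 → χ ^ 2 = 1 → ∀ τ : ℝ, 0 < τ → τ ≤ 1 → ∀ s : ℂ, 1 < s.re → s.re ≤ 2 → τ ≤ |s.im| →
    c * τ / ll q s ^ 8 ≤ ‖DD χ 0 s‖ :=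
  lower_real_t_of DD_lip_t zeta_near

end Pool.Agent.helper74.TG
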