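import Pool.Agent.helper96.TG.SW5
import Pool.Agent.helper96.TG.SW3b
import Pool.Agent.helper17.TG.SW3a
import Pool.Agent.helper95.TG.SW3c
import Pool.Agent.helper22.TG.SW4

/-! # GNU project, module sw:5: final form -/

namespace Pool.Agent.helper74.TG

open Finset ArithmeticFunction Pool.Agent.helper39.MT

/-- sw:5 -/
theorem lower_all (k : ℕ) (hk : 0 < k) : ∃ c : ℝ, 0 < c ∧ ∀ q : ℕ, 2 ≤ q →
    ∀ χ : DirichletCharacter ℂ q, χ ≠ 1 → ∀ s : ℂ, 1 < s.re → s.re ≤ 2 →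
    c / ((q : ℝ) ^ (1 / (k : ℝ)) * ll q s ^ 10) ≤ ‖DD χ 0 s‖ :=
  lower_all_of k hk DD_lip_t lower_complex_t lower_real_t lower_trivial (siegel k hk)

end Pool.Agent.helper74.TG
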