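import Pool.Agent.helper74.TG.Defs
import Pool.Agent.helper35.MT.AN4

/-! # GNU project, module sw:5: lower bound for all nonprincipal characters -/

namespace Pool.Agent.helper74.TG

open Finset ArithmeticFunction Pool.Agent.helper39.MT

/-- The value at `1` is the limit of the values on the right. -/
theorem h96_lip_one {C : ℝ} {q : ℕ} [NeZero q] {χ : DirichletCharacter ℂ q} (hχ : χ ≠ 1) {s : ℂ}
    {M : ℝ} (hM : 0 ≤ M)
    (hlip : ∀ s' : ℂ, 1 < s'.re → s'.re ≤ 2 → |s'.im| ≤ |s.im| →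
      ‖DD χ 0 s - DD χ 0 s'‖ ≤ M * ‖s - s'‖) :
    ‖DD χ 0 s - DirichletCharacter.LFunction χ 1‖ ≤ M * ‖s - 1‖ := by
  have hcont : Continuous (DirichletCharacter.LFunction χ) :=
    (DirichletCharacter.differentiable_LFunction hχ).continuous
  have hx : Filter.Tendsto (fun x : ℝ => (1 : ℂ) + (x : ℂ)) (nhdsWithin 0 (Set.Ioi 0)) (nhds 1) := by
    have h1 : Continuous (fun x : ℝ => (1 : ℂ) + (x : ℂ)) := by fun_prop
    have h2 := h1.tendsto 0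
    simp only [Complex.ofReal_zero, add_zero] at h2
    exact h2.mono_left nhdsWithin_le_nhds
  have h1 : Filter.Tendsto (fun x : ℝ => ‖DD χ 0 s - DirichletCharacter.LFunction χ (1 + (x : ℂ))‖)
      (nhdsWithin 0 (Set.Ioi 0)) (nhds ‖DD χ 0 s - DirichletCharacter.LFunction χ 1‖) :=
    (tendsto_const_nhds.sub ((hcont.tendsto 1).comp hx)).norm
  have h2 : Filter.Tendsto (fun x : ℝ => M * ‖s - (1 + (x : ℂ))‖)
      (nhdsWithin 0 (Set.Ioi 0)) (nhds (M * ‖s - 1‖)) :=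
    ((tendsto_const_nhds.sub hx).norm).const_mul M
  refine le_of_tendsto_of_tendsto h1 h2 ?_
  have h3 : Set.Ioo (0 : ℝ) 1 ∈ nhdsWithin (0 : ℝ) (Set.Ioi 0) :=
    Ioo_mem_nhdsGT (by norm_num)
  filter_upwards [h3] with x hx
  have hre : ((1 : ℂ) + (x : ℂ)).re = 1 + x := by simp
  have him : ((1 : ℂ) + (x : ℂ)).im = 0 := by simp
  have h4 := hlip (1 + (x : ℂ)) (by rw [hre]; linarith [hx.1]) (by rw [hre]; linarith [hx.2])
    (by rw [him, abs_zero]; exact abs_nonneg _)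
  have h5 : DD χ 0 (1 + (x : ℂ)) = DirichletCharacter.LFunction χ (1 + (x : ℂ)) := by
    rw [h35_DD_zero, DirichletCharacter.LFunction_eq_LSeries χ (by rw [hre]; linarith [hx.1])]
  rw [h5] at h4
  exact h4

/-- sw:5 from its ingredients. -/
theorem lower_all_of (k : ℕ) (hk : 0 < k)
    (hlip : ∃ C : ℝ, 0 < C ∧ ∀ q : ℕ, 2 ≤ q → ∀ χ : DirichletCharacter ℂ q,
      χ ≠ 1 → ∀ s s' : ℂ, 1 < s.re → s.re ≤ 2 → 1 < s'.re → s'.re ≤ 2 → |s'.im| ≤ |s.im| →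
      ‖DD χ 0 s - DD χ 0 s'‖ ≤ C * ll q s ^ 2 * ‖s - s'‖)
    (h3a : ∃ c : ℝ, 0 < c ∧ ∀ q : ℕ, 2 ≤ q → ∀ χ : DirichletCharacter ℂ q,
      χ ^ 2 ≠ 1 → ∀ s : ℂ, 1 < s.re → s.re ≤ 2 → c / ll q s ^ 7 ≤ ‖DD χ 0 s‖)
    (h3b : ∃ c : ℝ, 0 < c ∧ ∀ q : ℕ, 2 ≤ q → ∀ χ : DirichletCharacter ℂ q,
      χ ≠ 1 → χ ^ 2 = 1 → ∀ τ : ℝ, 0 < τ → τ ≤ 1 → ∀ s : ℂ, 1 < s.re → s.re ≤ 2 → τ ≤ |s.im| →
      c * τ / ll q s ^ 8 ≤ ‖DD χ 0 s‖)
    (h3c : ∃ c : ℝ, 0 < c ∧ ∀ q : ℕ, 0 < q → ∀ χ : DirichletCharacter ℂ q,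
      ∀ s : ℂ, 1 < s.re → s.re ≤ 2 → c * (s.re - 1) ≤ ‖DD χ 0 s‖)
    (hsiegel : ∃ c : ℝ, 0 < c ∧ ∀ (q : ℕ) [NeZero q], 2 ≤ q →
      ∀ χ : DirichletCharacter ℂ q, χ ≠ 1 → χ ^ 2 = 1 →
      c / (q : ℝ) ^ (1 / (k : ℝ)) ≤ ‖DirichletCharacter.LFunction χ 1‖) :
    ∃ c : ℝ, 0 < c ∧ ∀ q : ℕ, 2 ≤ q →
    ∀ χ : DirichletCharacter ℂ q, χ ≠ 1 → ∀ s : ℂ, 1 < s.re → s.re ≤ 2 →
    c / ((q : ℝ) ^ (1 / (k : ℝ)) * ll q s ^ 10) ≤ ‖DD χ 0 s‖ := by
  obtain ⟨C, hC, hlip⟩ := hlip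
  obtain ⟨ca, hca, h3a⟩ := h3a
  obtain ⟨cb, hcb, h3b⟩ := h3b
  obtain ⟨ct, hct, h3c⟩ := h3c
  obtain ⟨cs, hcs, hsiegel⟩ := hsiegel
  set c' := min 1 (cs / (4 * C)) with hc'
  have hc'0 : 0 < c' := lt_min one_pos (by positivity)
  have hc'1 : c' ≤ 1 := min_le_left _ _
  have hc's : c' * (4 * C) ≤ cs := by
    have := min_le_right (1 : ℝ) (cs / (4 * C))
    rwa [le_div_iff₀ (by positivity)] at this
  set c := min (min ca (cb * c')) (min (cs / 2) (ct * c')) with hc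
  have hc0 : 0 < c := lt_min (lt_min hca (by positivity)) (lt_min (by positivity) (by positivity))
  refine ⟨c, hc0, fun q hq χ hχ s hs1 hs2 => ?_⟩
  have hne : NeZero q := ⟨by omega⟩
  have hq1 : (1 : ℝ) ≤ q := by exact_mod_cast (by omega : 1 ≤ q)
  set Q := (q : ℝ) ^ (1 / (k : ℝ)) with hQ
  have hQ1 : 1 ≤ Q := Real.one_le_rpow hq1 (by positivity)
  have hQ0 : 0 < Q := by linarith
  set ℓ := ll q s with hℓ
  have hℓ1 : 1 ≤ ℓ := by
    have h1 : ℓ = 1 + Real.log q + Real.log (2 + |s.im|) := rfl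
    have h2 : 0 ≤ Real.log q := Real.log_nonneg hq1
    have h3 : 0 ≤ Real.log (2 + |s.im|) := Real.log_nonneg (by linarith [abs_nonneg s.im])
    rw [h1]; linarith
  have hℓ0 : 0 < ℓ := by linarith
  have red : ∀ (m : ℕ) (d : ℝ), m ≤ 10 → c ≤ d → 0 ≤ d → c / (Q * ℓ ^ 10) ≤ d / (Q * ℓ ^ m) := by
    intro m d hm hd hd0
    have h1 : ℓ ^ m ≤ ℓ ^ 10 := pow_le_pow_right₀ hℓ1 hm
    exact div_le_div₀ hd0 hd (by positivity) (mul_le_mul_of_nonneg_left h1 hQ0.le)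
  have hcca : c ≤ ca := (min_le_left _ _).trans (min_le_left _ _)
  have hccb : c ≤ cb * c' := (min_le_left _ _).trans (min_le_right _ _)
  have hccs : c ≤ cs / 2 := (min_le_right _ _).trans (min_le_left _ _)
  have hcct : c ≤ ct * c' := (min_le_right _ _).trans (min_le_right _ _)
  by_cases hχ2 : χ ^ 2 = 1
  swap
  · refine (red 7 ca (by norm_num) hcca hca.le).trans (le_trans ?_ (h3a q hq χ hχ2 s hs1 hs2))
    apply div_le_div_of_nonneg_left hca.le (by positivity)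
    have : 0 < ℓ ^ 7 := by positivity
    nlinarith
  set τ := c' / (Q * ℓ ^ 2) with hτ
  have hτ0 : 0 < τ := by positivity
  have hτ1 : τ ≤ 1 := by
    rw [hτ, div_le_one (by positivity)]
    have h1 : 1 ≤ ℓ ^ 2 := one_le_pow₀ hℓ1
    nlinarith
  rcases le_or_gt τ |s.im| with ht | ht
  · refine (red 10 (cb * c') le_rfl hccb (by positivity)).trans
      (le_trans (le_of_eq ?_) (h3b q hq χ hχ hχ2 τ hτ0 hτ1 s hs1 hs2 ht))
    rw [hτ, ← hℓ]
    field_simp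
  rcases le_or_gt τ (s.re - 1) with hx | hx
  · refine (red 2 (ct * c') (by norm_num) hcct (by positivity)).trans
      (le_trans ?_ (h3c q (by omega) χ s hs1 hs2))
    have : ct * c' / (Q * ℓ ^ 2) = ct * τ := by rw [hτ]; ring
    rw [this]
    exact mul_le_mul_of_nonneg_left hx hct.le
  · have h1 := h96_lip_one (C := C) hχ (M := C * ℓ ^ 2) (by positivity)
      (fun s' h1 h2 h3 => hlip q hq χ hχ s s' hs1 hs2 h1 h2 h3)
    have h2 : ‖s - 1‖ ≤ 2 * τ := by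
      refine (Complex.norm_le_abs_re_add_abs_im _).trans ?_
      rw [Complex.sub_re, Complex.one_re, Complex.sub_im, Complex.one_im, sub_zero,
        abs_of_nonneg (by linarith)]
      linarith
    have h3 := hsiegel q hq χ hχ hχ2
    have h4 : C * ℓ ^ 2 * ‖s - 1‖ ≤ cs / Q / 2 := by
      calc C * ℓ ^ 2 * ‖s - 1‖ ≤ C * ℓ ^ 2 * (2 * τ) :=
            mul_le_mul_of_nonneg_left h2 (by positivity)
        _ = c' * (4 * C) / Q / 2 := by rw [hτ]; field_simp; ring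
        _ ≤ cs / Q / 2 := by
            apply div_le_div_of_nonneg_right _ (by norm_num)
            exact div_le_div_of_nonneg_right hc's hQ0.le
    have h5 : ‖DirichletCharacter.LFunction χ 1‖ - ‖DD χ 0 s‖ ≤
        ‖DD χ 0 s - DirichletCharacter.LFunction χ 1‖ := by
      rw [norm_sub_rev]
      exact norm_sub_norm_le _ _
    have h6 := red 0 (cs / 2) (by norm_num) hccs (by positivity)
    rw [pow_zero, mul_one] at h6
    have h7 : cs / 2 / Q = cs / Q / 2 := by ring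
    have h8 : cs / Q = cs / Q / 2 + cs / Q / 2 := by ring
    linarith

end Pool.Agent.helper74.TG
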